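import Pool.Agent.helper73.TF.Spec

/-! Row VCY of TF. -/

set_option autoImplicit false

namespace Pool.Agent.TF

open Matrix Pool.Agent.H48SL
open scoped Pointwise

theorem VCY_dot {n : ℕ} (p : SLZ n) (v f : Fin n → ℤ) (hv : v ≠ 0) (h0 : f ⬝ᵥ v = 0) (a b : ℤ) (ha : a ≠ 0)
    (h : (tv v f) ^ a = (p * tv v f * p⁻¹) ^ b) : f ⬝ᵥ ((p : Matrix (Fin n) (Fin n) ℤ) *ᵥ v) = 0 := by
  rw [conj_zpow, ← tv_zsmul_right h0, ← tv_zsmul_right h0, tv_conj (by rw [smul_dotProduct, h0, smul_zero])] at h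
  have h1 : (tv v (a • f) : Matrix (Fin n) (Fin n) ℤ) *ᵥ ((p : Matrix (Fin n) (Fin n) ℤ) *ᵥ v) =
      (tv ((p : Matrix (Fin n) (Fin n) ℤ) *ᵥ v) ((b • f) ᵥ* ((p⁻¹ : SLZ n) : Matrix (Fin n) (Fin n) ℤ)) :
        Matrix (Fin n) (Fin n) ℤ) *ᵥ ((p : Matrix (Fin n) (Fin n) ℤ) *ᵥ v) := by
    rw [h]
  have h2 : ((b • f) ᵥ* ((p⁻¹ : SLZ n) : Matrix (Fin n) (Fin n) ℤ)) ⬝ᵥ ((p : Matrix (Fin n) (Fin n) ℤ) *ᵥ v) = 0 := by
    rw [vecMul_inv_dot, smul_dotProduct, h0, smul_zero]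
  rw [tv_mulVec (by rw [smul_dotProduct, h0, smul_zero]), tv_mulVec h2, h2, zero_smul, add_zero,
    smul_dotProduct] at h1
  have h3 : (a • (f ⬝ᵥ ((p : Matrix (Fin n) (Fin n) ℤ) *ᵥ v))) • v = 0 := add_eq_left.1 h1
  rcases smul_eq_zero.1 h3 with h4 | h4
  · rcases smul_eq_zero.1 h4 with h5 | h5
    · exact absurd h5 ha
    · exact h5
  · exact absurd h4 hv

theorem VCY_cosets {G : Type} [Group G] (P : Subgroup G) (z : G)
    (h : (Subgroup.zpowers z).relIndex P ≠ 0) :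
    ∃ F : Set G, F.Finite ∧ F ⊆ P ∧ ∀ p ∈ P, ∃ a : ℤ, ∃ c ∈ F, p = z ^ a * c := by
  have hfin : Finite (P ⧸ (Subgroup.zpowers z).subgroupOf P) := by
    apply Nat.finite_of_card_ne_zero
    exact h
  refine ⟨Set.range (fun q : P ⧸ (Subgroup.zpowers z).subgroupOf P => (((q.out : P)⁻¹ : P) : G)),
    Set.finite_range _, ?_, ?_⟩
  · rintro _ ⟨q, rfl⟩
    exact SetLike.coe_mem _
  · intro p hp
    obtain ⟨w, hw⟩ := QuotientGroup.mk_out_eq_mul ((Subgroup.zpowers z).subgroupOf P) ((⟨p, hp⟩ : P)⁻¹)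
    obtain ⟨a, ha⟩ := Subgroup.mem_zpowers_iff.1 (Subgroup.mem_subgroupOf.1 w.2)
    refine ⟨a, _, ⟨QuotientGroup.mk ((⟨p, hp⟩ : P)⁻¹), rfl⟩, ?_⟩
    rw [ha]
    simp only
    rw [hw]
    simp

theorem VCY (hSLV : SLV_stmt) (hFIX : FIX_stmt) : VCY_stmt := by
  intro n H hRk P hPH hP z hz hzt
  obtain ⟨S, hSP, hSs, hSi⟩ := hP
  obtain ⟨v, f, hv, hf, h0, hzeq⟩ := hzt
  obtain ⟨j, hj, -, hjS⟩ := Subgroup.exists_pow_mem_of_relIndex_ne_zero hSi hz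
  have hjS' : z ^ j ∈ S := (Subgroup.mem_inf.1 hjS).1
  have hf' : ((j : ℤ) • f) ≠ 0 := by
    intro h
    rcases smul_eq_zero.1 h with h1 | h1
    · omega
    · exact hf h1
  have h0' : ((j : ℤ) • f) ⬝ᵥ v = 0 := by rw [smul_dotProduct, h0, smul_zero]
  have hzj : z ^ j = tv v ((j : ℤ) • f) := by
    rw [tv_nsmul_right h0, hzeq]
  have hTv : Tv (z ^ j) v ((j : ℤ) • f) := ⟨hv, hf', h0', hzj⟩
  have hpow : ∀ p ∈ S, ∃ k : ℕ, 1 ≤ k ∧ ∃ m : ℤ, p ^ k = (z ^ j) ^ m := by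
    intro p hp
    obtain ⟨a, b, ha, hb, hab⟩ := hSLV n H hRk S (hSP.trans hPH) hSs (z ^ j) hjS' ⟨v, _, hTv⟩ p hp
    refine hRk.stab (z ^ j) p v _ (hPH (hSP hjS')) (hPH (hSP hp)) hTv ?_
    apply VCY_dot p v _ hv h0' a b ha
    rw [← hzj]
    exact hab
  have h1 := hFIX n S (z ^ j) v _ hjS' hTv hpow
  have h2 : (Subgroup.zpowers (z ^ j)).relIndex P ≠ 0 := by
    rw [← Subgroup.relIndex_mul_relIndex (Subgroup.zpowers (z ^ j)) S P (by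
      rw [Subgroup.zpowers_le]
      exact hjS') hSP]
    exact mul_ne_zero h1 hSi
  have h3 : (Subgroup.zpowers z).relIndex P ≠ 0 := by
    intro h
    apply h2
    have h4 : Subgroup.zpowers (z ^ j) ≤ Subgroup.zpowers z := by
      rw [Subgroup.zpowers_le]
      exact Subgroup.pow_mem _ (Subgroup.mem_zpowers z) j
    have h5 := Subgroup.relIndex_dvd_of_le_left P h4
    rw [h] at h5
    exact Nat.eq_zero_of_zero_dvd h5
  exact VCY_cosets P z h3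

end Pool.Agent.TF
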